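import Pool.Agent.Y754.UL.S

/-!
# Almost contractive positive semigroups on `L_p` without bounded `H^∞`-calculus, BIP or `R`-sectoriality

For every `p ∈ (1, ∞)` and every `ε > 0` there is a positive `C_0`-semigroup `T` on an `L_p`-space with `‖T(t)‖ ≤ 1 + ε` for all
`t ≥ 0`, whose generator `-A` is bounded and sectorial of angle `0`, while `A` has no bounded `H^∞`-calculus and not all its
imaginary powers are bounded; if `p > 2` then `A` is not `R`-sectorial.
-/

set_option autoImplicit false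

open Pool.Agent.H716R3 Pool.Agent.Helper604.UMD Pool.Agent.Y754.UL MeasureTheory
open scoped NNReal ENNReal

namespace Pool.Agent.Results.MP_a83649_an.AlmostContractive

/-- The function `f` is a.e. nonnegative (in particular a.e. real). -/
def AENonneg {Ω : Type} [MeasurableSpace Ω] {μ : Measure Ω} {p : ℝ≥0∞} (f : Lp ℂ p μ) : Prop :=
  ∀ᵐ x ∂μ, 0 ≤ (f x).re ∧ (f x).im = 0

/-- `-A` generates a `C_0`-semigroup `T` with `‖T(t)‖ ≤ c` for all `t`, which maps the set `pos` into itself. With `pos` the set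
of a.e. nonnegative functions of `L_p(Ω)` this says that `T` is a positive `C_0`-semigroup with norms at most `c`. -/
def GeneratesPositiveSemigroup {X : Type} [NormedAddCommGroup X] [NormedSpace ℂ X] (pos : X → Prop) (c : ℝ)
    (A : X →ₗ.[ℂ] X) : Prop :=
  ∃ T : ℝ≥0 → X →L[ℂ] X, IsC0Semigroup T ∧ IsGenerator T (-A) ∧ (∀ t, ‖T t‖ ≤ c) ∧ ∀ t f, pos f → pos (T t f)

/-- `A` is everywhere defined, bounded, and sectorial of every angle `ω > 0`, so that `ω(A) = 0`. -/
def IsBoundedSectorial {X : Type} [NormedAddCommGroup X] [NormedSpace ℂ X] (A : X →ₗ.[ℂ] X) : Prop :=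
  A.domain = ⊤ ∧ (∃ C : ℝ, ∀ x : A.domain, ‖A x‖ ≤ C * ‖(x : X)‖) ∧
    IsSectorial A ∧ (∀ ω : ℝ, 0 < ω → ω ≤ Real.pi → IsSectorialOfAngle A ω) ∧ sectorialAngle A = 0

/-- For every `p ∈ (1, ∞)` and every `ε > 0` there are a measure space `Ω` and an everywhere defined bounded operator `A` on
`L_p(Ω)`, sectorial of every angle `ω > 0`, such that `-A` generates a positive `C_0`-semigroup `T` with `‖T(t)‖ ≤ 1 + ε` for all
`t ≥ 0`, while `A` has no bounded `H^∞`-calculus, not all its imaginary powers are bounded, and, when `p > 2`, `A` is not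
`R`-sectorial (hence not `R`-analytic). -/
theorem result (p : ℝ≥0∞) [Fact (1 ≤ p)] (h1 : 1 < p) (htop : p ≠ ∞) (ε : ℝ) (hε : 0 < ε) :
    ∃ (Ω : Type) (_ : MeasurableSpace Ω) (μ : Measure Ω) (A : Lp ℂ p μ →ₗ.[ℂ] Lp ℂ p μ),
      IsBoundedSectorial A ∧ GeneratesPositiveSemigroup (fun f : Lp ℂ p μ => AENonneg f) (1 + ε) A ∧
      ¬ HasBoundedHInftyCalculus A ∧ ¬ HasBIP A ∧ (2 < p → ¬ IsRSectorial A ∧ ¬ IsRAnalytic A) := by
  have hp : 1 < p.toReal := by
    rw [← ENNReal.toReal_one]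
    exact (ENNReal.toReal_lt_toReal ENNReal.one_ne_top htop).2 h1
  have hp0 : 0 < p.toReal := by linarith
  obtain ⟨δ, hδ, hδ1, hδε⟩ := exists_delta hε hp
  set m₀ := lcModel p htop hp with hm₀
  set m := scaled m₀ hp0 hδ hδ1 with hm
  refine ⟨I, inferInstance, Measure.count, m.A hp, ⟨rfl, ⟨‖m.Ab hp‖, fun x => (m.Ab hp).le_opNorm _⟩, m.isSectorial hp,
    fun ω h0 h1 => m.sectorial_angle hp h0 h1, m.angle_eq hp⟩,
    ⟨m.T hp, m.isC0 hp, m.isGen hp, fun t => ?_, ?_⟩, m.no_hinf hp, m.no_bip hp, fun h2 => ?_⟩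
  · have := scaled_norm m₀ rfl hp hp0 hδ hδ1 t
    linarith
  · intro t f hf
    unfold AENonneg at hf ⊢
    rw [Measure.ae_count_iff] at hf ⊢
    have e : m₀.co (m.T hp t f) = fun i => ((opd δ (symT t) (fun i => (f i).re) i : ℝ) : ℂ) := by
      rw [hm, scaled_T]
      have e1 : m₀.co f = fun i => (((f i).re : ℝ) : ℂ) := by
        funext i
        change f i = _
        apply Complex.ext
        · simp
        · rw [Complex.ofReal_im]
          exact (hf i).2
      rw [e1, opd_real hδ]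
    intro i
    have e2 : (m.T hp t f) i = ((opd δ (symT t) (fun i => (f i).re) i : ℝ) : ℂ) := congrFun e i
    rw [e2, Complex.ofReal_re, Complex.ofReal_im]
    exact ⟨opd_nonneg hδ t.coe_nonneg (fun i => (hf i).1) i, rfl⟩
  · have h3 : 2 < p.toReal := by
      have : (2 : ℝ≥0∞).toReal = 2 := by norm_num
      rw [← this]
      exact (ENNReal.toReal_lt_toReal (by norm_num) htop).2 h2
    have h4 := m.no_rsect h3 hp
    exact ⟨h4, fun h => h4 h.1⟩

end Pool.Agent.Results.MP_a83649_an.AlmostContractive
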